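import Pool.Agent.H.MP_9e0eae_gt.A

/-! A Riemannian 4-manifold with `(L_3)` but without `(L_2)`. -/

namespace Pool.Agent.Results.MP_9e0eae_gt.No

open Finset Function Pool.Agent.H.MP_9e0eae_gt

lemma collapse {k : ℕ} (x : Fin 4 → ℝ) (R T : (Fin k → Fin 4) → ℝ) :
    ∑ I : Fin k → Fin 4, ∑ J : Fin k → Fin 4, (∏ p, (g0 x)⁻¹ (I p) (J p)) * R I * T J =
      ∑ I : Fin k → Fin 4, (∏ p, (Real.exp (ph x (I p)))⁻¹) * R I * T I := by
  refine sum_congr rfl fun I _ => ?_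
  rw [sum_eq_single I (fun J _ h => ?_) (by simp)]
  · simp [ginv]
  · obtain ⟨p, hp⟩ := ne_iff.1 h
    rw [prod_eq_zero (mem_univ p) (by simp [ginv, hp.symm]), zero_mul, zero_mul]

lemma ric_eq {k : ℕ} (x : Fin 4 → ℝ) (T : (Fin k → Fin 4) → ℝ) (I : Fin k → Fin 4) :
    ricL g0 x T I = ∑ p, ∑ e, (Real.exp (ph x e))⁻¹ * -∑ q,
      KK (1 - x 0 ^ 2) ((1 - x 2 ^ 2) / Real.exp (ph x 2) - 1 / 100) (-1 / 100) (x 0 / 10) e (I p) *
      ((if I p = update I p e q then Real.exp (ph x (I p)) * T (update (update I p e) q e) else 0) -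
        if e = update I p e q then Real.exp (ph x e) * T (update (update I p e) q (I p)) else 0) := by
  simp only [ricL, ginv, Matrix.diagonal_apply, ite_mul, zero_mul, sum_ite_eq, mem_univ, if_true,
    curvT, curv_eq, mul_assoc, ← mul_sum, sub_mul, sum_sub_distrib, ite_and, sum_ite_irrel,
    sum_const_zero]

lemma sum2 (f : (Fin 2 → Fin 4) → ℝ) : ∑ I, f I = ∑ a, ∑ b, f ![a, b] := by
  rw [← Fintype.sum_prod_type']
  exact Fintype.sum_equiv (finTwoArrowEquiv _) _ _ fun I => by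
    congr 1; ext i; fin_cases i <;> rfl

lemma sum3 (f : (Fin 3 → Fin 4) → ℝ) : ∑ I, f I = ∑ a, ∑ b, ∑ c, f ![a, b, c] := by
  simp only [← Fintype.sum_prod_type']
  exact Fintype.sum_equiv ⟨fun I => (I 0, I 1, I 2), fun p => ![p.1, p.2.1, p.2.2],
    fun I => by ext i; fin_cases i <;> rfl, fun _ => rfl⟩ _ _ fun I => by
      congr 1; ext i; fin_cases i <;> rfl

lemma u20 (a b e : Fin 4) : update ![a, b] 0 e = ![e, b] := by ext i; fin_cases i <;> simp
lemma u21 (a b e : Fin 4) : update ![a, b] 1 e = ![a, e] := by ext i; fin_cases i <;> simp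
lemma u0 (a b c e : Fin 4) : update ![a, b, c] 0 e = ![e, b, c] := by ext i; fin_cases i <;> simp
lemma u1 (a b c e : Fin 4) : update ![a, b, c] 1 e = ![a, e, c] := by ext i; fin_cases i <;> simp
lemma u2 (a b c e : Fin 4) : update ![a, b, c] 2 e = ![a, b, e] := by ext i; fin_cases i <;> simp

lemma not2 : ¬ CondL g0 2 0 := by
  intro h
  have := h (fun I => if I 0 = I 1 then (if I 0 = 0 ∨ I 0 = 1 then 1 else -1) else 0) (by
    intro σ I
    fin_cases σ
    · rfl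
    · by_cases h : I 0 = I 1
      · simp [h]
      · simp [h, Ne.symm h])
  have e : ∀ i, Real.exp (ph 0 i) = 1 := fun i => by fin_cases i <;> simp [ph]
  rw [collapse, sum2] at this
  simp only [ric_eq, e, Fin.sum_univ_two, u20, u21, Matrix.cons_val_zero, Matrix.cons_val_one,
    Fin.prod_univ_two] at this
  simp [Fin.sum_univ_four, KK] at this
  norm_num at this

/-- one slot of the curvature term in an orthonormal frame -/
noncomputable def slot (K : Fin 4 → Fin 4 → ℝ) (s : Fin 4 → Fin 4 → Fin 4 → ℝ) (a b c : Fin 4) : ℝ :=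
  ∑ e, -(K e a * ((if a = e then s e b c else 0) - s a b c) +
    K e a * ((if a = b then s e e c else 0) - if e = b then s e a c else 0) +
    K e a * ((if a = c then s e b e else 0) - if e = c then s e b a else 0))

/-- one slot of the curvature term in coordinates -/
noncomputable def slotE (K : Fin 4 → Fin 4 → ℝ) (h : Fin 4 → ℝ) (s : Fin 4 → Fin 4 → Fin 4 → ℝ)
    (a b c : Fin 4) : ℝ :=
  ∑ e, (h e ^ 2)⁻¹ * -(K e a * ((if a = e then h a ^ 2 * s e b c else 0) - h e ^ 2 * s a b c) +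
    K e a * ((if a = b then h a ^ 2 * s e e c else 0) - if e = b then h e ^ 2 * s e a c else 0) +
    K e a * ((if a = c then h a ^ 2 * s e b e else 0) - if e = c then h e ^ 2 * s e b a else 0))

lemma scale (K : Fin 4 → Fin 4 → ℝ) (h : Fin 4 → ℝ) (h0 : ∀ i, h i ≠ 0)
    (s : Fin 4 → Fin 4 → Fin 4 → ℝ) (a b c : Fin 4) :
    slotE K h (fun a b c => s a b c * (h a * h b * h c)) a b c =
      slot K s a b c * (h a * h b * h c) := by
  rw [slotE, slot, sum_mul]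
  refine sum_congr rfl fun e _ => ?_
  have := h0 e
  have a1 : (if a = e then h a ^ 2 * (s e b c * (h e * h b * h c)) else 0) =
      h e ^ 2 * ((if a = e then s e b c else 0) * (h a * h b * h c)) := by
    split_ifs with h <;> simp [h]
  have a2 : (if a = b then h a ^ 2 * (s e e c * (h e * h e * h c)) else 0) =
      h e ^ 2 * ((if a = b then s e e c else 0) * (h a * h b * h c)) := by
    split_ifs with h
    · subst h; ring
    · simp
  have a3 : (if e = b then h e ^ 2 * (s e a c * (h e * h a * h c)) else 0) =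
      h e ^ 2 * ((if e = b then s e a c else 0) * (h a * h b * h c)) := by
    split_ifs with h
    · subst h; ring
    · simp
  have a4 : (if a = c then h a ^ 2 * (s e b e * (h e * h b * h e)) else 0) =
      h e ^ 2 * ((if a = c then s e b e else 0) * (h a * h b * h c)) := by
    split_ifs with h
    · subst h; ring
    · simp
  have a5 : (if e = c then h e ^ 2 * (s e b a * (h e * h b * h a)) else 0) =
      h e ^ 2 * ((if e = c then s e b a else 0) * (h a * h b * h c)) := by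
    split_ifs with h
    · subst h; ring
    · simp
  rw [a1, a2, a3, a4, a5, inv_mul_eq_iff_eq_mul₀ (pow_ne_zero 2 this)]
  ring

lemma blk {A B c0 c1 c2 c3 m1 m2 m3 m4 : ℝ} (hA : 9 / 10 ≤ A) (hB : 9 / 10 ≤ B)
    (h0 : 3 * A - 1 / 10 ≤ c0) (h1 : 21 * A - 1 ≤ c1) (h2 : 6 * B + 2 ≤ c2) (h3 : 6 * B + 2 ≤ c3)
    (k1 : |m1| ≤ 1 / 100) (k2 : |m2| ≤ 1 / 100) (k3 : |m3| ≤ 1 / 100) (k4 : |m4| ≤ 1 / 100)
    (y0 y1 y2 y3 : ℝ) : 0 ≤ c0 * y0 ^ 2 + c1 * y1 ^ 2 + c2 * y2 ^ 2 + c3 * y3 ^ 2 -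
      12 * (A * (y0 * y1) + B * (y2 * y3) + m1 * (y0 * y2) + m2 * (y0 * y3) + m3 * (y1 * y2) +
        m4 * (y1 * y3)) := by
  have q : ∀ m a b : ℝ, |m| ≤ 1 / 100 → m * (a * b) ≤ (a ^ 2 + b ^ 2) / 200 := fun m a b h => by
    rw [abs_le] at h
    nlinarith [mul_nonneg (sub_nonneg.2 h.2) (sq_nonneg (a + b)),
      mul_nonneg (sub_nonneg.2 h.1) (sq_nonneg (a - b))]
  have a0 := mul_le_mul_of_nonneg_right h0 (sq_nonneg y0)
  have a1 := mul_le_mul_of_nonneg_right h1 (sq_nonneg y1)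
  have a2 := mul_le_mul_of_nonneg_right h2 (sq_nonneg y2)
  have a3 := mul_le_mul_of_nonneg_right h3 (sq_nonneg y3)
  have b0 := mul_le_mul_of_nonneg_right hA (sq_nonneg y0)
  have b1 := mul_le_mul_of_nonneg_right hA (sq_nonneg y1)
  have b2 := mul_nonneg (show 0 ≤ A by linarith) (sq_nonneg (2 * y0 - 5 * y1))
  have b3 := mul_nonneg (show 0 ≤ B by linarith) (sq_nonneg (y2 - y3))
  nlinarith [q m1 y0 y2 k1, q m2 y0 y3 k2, q m3 y1 y2 k3, q m4 y1 y3 k4, sq_nonneg y0,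
    sq_nonneg y1, sq_nonneg y2, sq_nonneg y3]

lemma pos3 {A B u v : ℝ} (hA : 9 / 10 ≤ A) (hB : 9 / 10 ≤ B) (hu : |u| ≤ 1 / 100)
    (hv : |v| ≤ 1 / 100) (s : Fin 4 → Fin 4 → Fin 4 → ℝ) (s1 : ∀ a b c, s a b c = s b a c)
    (s2 : ∀ a b c, s a b c = s a c b) :
    0 ≤ ∑ a, ∑ b, ∑ c, (slot (KK A B u v) s a b c + slot (KK A B u v) s b a c +
      slot (KK A B u v) s c a b) * s a b c := by
  have hu' := abs_le.1 hu
  have hv' := abs_le.1 hv
  have b0 := blk hA hB (c0 := 3 * (A + 2 * u)) (c1 := 3 * (7 * A + 4 * v + 2 * u))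
    (c2 := 3 * (2 * B + A + 8 * u + 2 * v)) (c3 := 3 * (2 * B + A + 8 * u + 2 * v))
    (by linarith) (by linarith) (by linarith) (by linarith) hu hu hv hv
    (s 0 0 0) (s 0 1 1) (s 0 2 2) (s 0 3 3)
  have b1 := blk hA hB (c0 := 3 * (A + 2 * v)) (c1 := 3 * (7 * A + 4 * u + 2 * v))
    (c2 := 3 * (2 * B + A + 8 * v + 2 * u)) (c3 := 3 * (2 * B + A + 8 * v + 2 * u))
    (by linarith) (by linarith) (by linarith) (by linarith) hv hv hu hu
    (s 1 1 1) (s 0 0 1) (s 1 2 2) (s 1 3 3)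
  have b2 := blk hB hA (c0 := 3 * (B + u + v)) (c1 := 3 * (7 * B + 3 * u + 3 * v))
    (c2 := 3 * (2 * A + B + 9 * u + v)) (c3 := 3 * (2 * A + B + 9 * v + u))
    (by linarith) (by linarith) (by linarith) (by linarith) hu hv hu hv
    (s 2 2 2) (s 2 3 3) (s 0 0 2) (s 1 1 2)
  have b3 := blk hB hA (c0 := 3 * (B + u + v)) (c1 := 3 * (7 * B + 3 * u + 3 * v))
    (c2 := 3 * (2 * A + B + 9 * u + v)) (c3 := 3 * (2 * A + B + 9 * v + u))
    (by linarith) (by linarith) (by linarith) (by linarith) hu hv hu hv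
    (s 3 3 3) (s 2 2 3) (s 0 0 3) (s 1 1 3)
  have c0 := mul_nonneg (show 0 ≤ 6 * (4 * A + B + 5 * u + 5 * v) by linarith) (sq_nonneg (s 0 1 2))
  have c1 := mul_nonneg (show 0 ≤ 6 * (4 * A + B + 5 * u + 5 * v) by linarith) (sq_nonneg (s 0 1 3))
  have c2 := mul_nonneg (show 0 ≤ 6 * (A + 4 * B + 8 * u + 2 * v) by linarith) (sq_nonneg (s 0 2 3))
  have c3 := mul_nonneg (show 0 ≤ 6 * (A + 4 * B + 8 * v + 2 * u) by linarith) (sq_nonneg (s 1 2 3))
  have k0 : ∀ j, KK A B u v 0 j = ![0, A, u, u] j := fun _ => rfl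
  have k1 : ∀ j, KK A B u v 1 j = ![A, 0, v, v] j := fun _ => rfl
  have k2 : ∀ j, KK A B u v 2 j = ![u, v, 0, B] j := fun _ => rfl
  have k3 : ∀ j, KK A B u v 3 j = ![u, v, B, 0] j := fun _ => rfl
  simp only [slot, Fin.sum_univ_four, Fin.isValue, Fin.reduceEq, if_true, if_false, k0, k1, k2, k3,
    Matrix.cons_val, zero_mul, sub_zero, zero_sub, add_zero, zero_add, mul_zero, sub_self]
  simp only [(s2 0 1 0), (s2 0 2 0),
    (s2 0 2 1), (s2 0 3 0),
    (s2 0 3 1), (s2 0 3 2),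
    ((s1 1 0 0).trans (s2 0 1 0)), (s1 1 0 1),
    (s1 1 0 2), (s1 1 0 3),
    ((s2 1 1 0).trans (s1 1 0 1)), ((s2 1 2 0).trans (s1 1 0 2)),
    (s2 1 2 1), ((s2 1 3 0).trans (s1 1 0 3)),
    (s2 1 3 1), (s2 1 3 2),
    ((s1 2 0 0).trans (s2 0 2 0)), ((s1 2 0 1).trans (s2 0 2 1)),
    (s1 2 0 2), (s1 2 0 3),
    (((s1 2 1 0).trans (s2 1 2 0)).trans (s1 1 0 2)), ((s1 2 1 1).trans (s2 1 2 1)),
    (s1 2 1 2), (s1 2 1 3),
    ((s2 2 2 0).trans (s1 2 0 2)), ((s2 2 2 1).trans (s1 2 1 2)),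
    ((s2 2 3 0).trans (s1 2 0 3)), ((s2 2 3 1).trans (s1 2 1 3)),
    (s2 2 3 2), ((s1 3 0 0).trans (s2 0 3 0)),
    ((s1 3 0 1).trans (s2 0 3 1)), ((s1 3 0 2).trans (s2 0 3 2)),
    (s1 3 0 3), (((s1 3 1 0).trans (s2 1 3 0)).trans (s1 1 0 3)),
    ((s1 3 1 1).trans (s2 1 3 1)), ((s1 3 1 2).trans (s2 1 3 2)),
    (s1 3 1 3), (((s1 3 2 0).trans (s2 2 3 0)).trans (s1 2 0 3)),
    (((s1 3 2 1).trans (s2 2 3 1)).trans (s1 2 1 3)), ((s1 3 2 2).trans (s2 2 3 2)),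
    (s1 3 2 3), ((s2 3 3 0).trans (s1 3 0 3)),
    ((s2 3 3 1).trans (s1 3 1 3)), ((s2 3 3 2).trans (s1 3 2 3))]
  linear_combination b0 + b1 + b2 + b3 + c0 + c1 + c2 + c3

lemma has3 (x : Fin 4 → ℝ) (hx : x ∈ Metric.ball (0 : Fin 4 → ℝ) (1 / 10)) : CondL g0 3 x := by
  intro T hT
  have hx' : ∀ i, |x i| < 1 / 10 := fun i => by
    simpa using (norm_le_pi_norm x i).trans_lt (mem_ball_zero_iff.1 hx)
  have h0 := abs_lt.1 (hx' 0)
  have h2 := abs_lt.1 (hx' 2)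
  obtain ⟨h, hh, h0'⟩ : ∃ h : Fin 4 → ℝ, (∀ i, Real.exp (ph x i) = h i ^ 2) ∧ ∀ i, h i ≠ 0 :=
    ⟨fun i => Real.exp (ph x i / 2), fun i => by rw [← Real.exp_nat_mul]; congr 1; push_cast; ring,
      fun i => (Real.exp_pos _).ne'⟩
  have t1 : ∀ a b c, T ![a, b, c] = T ![b, a, c] := fun a b c => by
    rw [← hT (Equiv.swap 0 1)]; congr 1; ext i; fin_cases i <;> rfl
  have t2 : ∀ a b c, T ![a, b, c] = T ![a, c, b] := fun a b c => by
    rw [← hT (Equiv.swap 1 2)]; congr 1; ext i; fin_cases i <;> rfl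
  obtain ⟨s, hs, s1, s2⟩ : ∃ s : Fin 4 → Fin 4 → Fin 4 → ℝ,
      (∀ a b c, T ![a, b, c] = s a b c * (h a * h b * h c)) ∧ (∀ a b c, s a b c = s b a c) ∧
        ∀ a b c, s a b c = s a c b :=
    ⟨fun a b c => T ![a, b, c] / (h a * h b * h c), fun a b c => by
      have := h0' a; have := h0' b; have := h0' c; field_simp,
      fun a b c => by simp only [t1 a b c]; ring, fun a b c => by simp only [t2 a b c]; ring⟩
  have hB : 9 / 10 ≤ (1 - x 2 ^ 2) / Real.exp (ph x 2) - 1 / 100 := by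
    have e1 : (Real.exp (ph x 2))⁻¹ = Real.exp (-(x 0 / 5)) := by rw [Real.exp_neg]; rfl
    have := Real.add_one_le_exp (-(x 0 / 5))
    have h3 : 99 / 100 ≤ 1 - x 2 ^ 2 := by nlinarith
    rw [div_eq_mul_inv (1 - x 2 ^ 2), e1]
    nlinarith [mul_le_mul h3 (show 98 / 100 ≤ Real.exp (-(x 0 / 5)) by linarith) (by norm_num)
      (by linarith)]
  rw [collapse, sum3]
  refine (pos3 (A := 1 - x 0 ^ 2) (u := -1 / 100) (v := x 0 / 10) (by nlinarith) hB
    (by rw [abs_le]; norm_num) (by rw [abs_le]; constructor <;> linarith) s s1 s2).trans_eq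
    (sum_congr rfl fun a _ => sum_congr rfl fun b _ => sum_congr rfl fun c _ => ?_)
  have key : ∀ K : Fin 4 → Fin 4 → ℝ, (∑ p, ∑ e, (Real.exp (ph x e))⁻¹ * -∑ q, K e (![a, b, c] p) *
      ((if ![a, b, c] p = update ![a, b, c] p e q then Real.exp (ph x (![a, b, c] p)) *
        T (update (update ![a, b, c] p e) q e) else 0) - if e = update ![a, b, c] p e q then
          Real.exp (ph x e) * T (update (update ![a, b, c] p e) q (![a, b, c] p)) else 0)) =
      slotE K h (fun a b c => T ![a, b, c]) a b c + slotE K h (fun a b c => T ![b, a, c]) b a c +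
        slotE K h (fun a b c => T ![b, c, a]) c a b := by
    intro K
    simp only [Fin.sum_univ_three, u0, u1, u2, Matrix.cons_val_zero,
      Matrix.cons_val_one, Matrix.cons_val, hh, slotE, if_true]
    congr 1
    congr 1
    all_goals exact sum_congr rfl fun e _ => by ring
  have e1 : (fun a b c => T ![b, a, c]) = fun a b c => T ![a, b, c] := by
    ext a b c; exact t1 b a c
  have e2 : (fun a b c => T ![b, c, a]) = fun a b c => T ![a, b, c] := by
    ext a b c; rw [t2 b c a, t1 b a c]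
  rw [ric_eq, key, e1, e2]
  simp only [hs, scale _ h h0', Fin.prod_univ_three, hh, Matrix.cons_val_zero,
    Matrix.cons_val_one, Matrix.cons_val]
  have := h0' a
  have := h0' b
  have := h0' c
  field_simp

theorem result : ∃ (g : (Fin 4 → ℝ) → Matrix (Fin 4) (Fin 4) ℝ) (r : ℝ), 0 < r ∧
    (∀ i j, ContDiff ℝ ⊤ fun x => g x i j) ∧ (∀ x, (g x).PosDef) ∧
    (∀ x ∈ Metric.ball (0 : Fin 4 → ℝ) r, CondL g 3 x) ∧
    ∃ x ∈ Metric.ball (0 : Fin 4 → ℝ) r, ¬ CondL g 2 x := by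
  refine ⟨g0, 1 / 10, by norm_num, fun i j => ?_, fun x => ?_, has3, 0, by simp, not2⟩
  · by_cases h : i = j
    · subst h
      simp only [g0, Matrix.diagonal_apply_eq]
      fin_cases i <;> simp [ph] <;> fun_prop
    · simp [g0, h, contDiff_const]
  · exact Matrix.PosDef.diagonal fun i => Real.exp_pos _

end Pool.Agent.Results.MP_9e0eae_gt.No
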